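import Pool.Agent.Helper75.PZ.Stmts2

/-!
# Row AC: the base field is algebraically closed in the rational function field
-/

set_option autoImplicit false

universe u

namespace Pool.Agent.Helper49.PZ

open Pool.Agent.Helper75.PZ

theorem st_AC : ST_AC.{u} := by
  intro F _ m hm
  have h1 : IsIntegral F m := hm.isIntegral
  have h2 : IsIntegral (Polynomial F) m := h1.tower_top
  obtain ⟨p, hp⟩ := IsIntegrallyClosed.isIntegral_iff.1 h2
  rw [← hp] at hm
  have h3 : IsAlgebraic F p :=
    (isAlgebraic_algebraMap_iff (IsFractionRing.injective (Polynomial F) (RatFunc F))).1 hm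
  have h4 : p.natDegree = 0 := by
    by_contra h5
    have h6 : IsUnit p.leadingCoeff := by
      rw [isUnit_iff_ne_zero, Polynomial.leadingCoeff_ne_zero]
      intro h7
      rw [h7] at h5
      exact h5 Polynomial.natDegree_zero
    have h8 := (Polynomial.transcendental_X F).aeval p h5 (mem_nonZeroDivisors_of_ne_zero h6.ne_zero)
    rw [Polynomial.aeval_X_left_apply] at h8
    exact h8 h3
  obtain ⟨r, hr⟩ := Polynomial.natDegree_eq_zero.1 h4
  refine ⟨r, ?_⟩
  rw [← hp, ← hr]
  rw [IsScalarTower.algebraMap_apply F (Polynomial F) (RatFunc F)]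
  rfl

end Pool.Agent.Helper49.PZ
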