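import Pool.Agent.Helper75.PZ.Stmts2

/-!
# Row OM: the twisted operators are closed under composition
-/

set_option autoImplicit false

universe u

open Module

namespace Pool.Agent.Helper49.PZ

open Pool.Agent.Helper75.PZ

section

variable {F M : Type u} [Field F] [Field M] [Algebra F M] {σ : M ≃ₐ[F] M}
  {φ ψ : HS M →ₐ[F] HS M}

theorem om_comm (hφ : PHI σ φ) (hψ : PSI ψ) (h : HS M) : φ (ψ h) = ψ (φ h) := by
  apply HahnSeries.ext
  funext γ'
  rw [hφ]
  by_cases hd : 6 ∣ n1 γ'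
  · obtain ⟨k, hk⟩ := hd
    have a1 := hψ.1 h (toLex (k, n2 γ')) γ' hk rfl
    have a2 := hψ.1 (φ h) (toLex (k, n2 γ')) γ' hk rfl
    rw [a1, a2, hφ]
    rfl
  · rw [hψ.2 h γ' hd, hψ.2 (φ h) γ' hd, map_zero, mul_zero]

theorem om_XX (hφ : PHI σ φ) : φ (XX M) = XX M := by
  apply HahnSeries.ext
  funext γ
  rw [hφ]
  unfold XX
  by_cases h : γ = toLex ((1 : ℤ), (0 : ℤ))
  · rw [h, HahnSeries.coeff_single_same, map_one]
    simp [n2]
  · rw [HahnSeries.coeff_single_of_ne h, map_zero, mul_zero]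

theorem om_six (hφ : PHI σ φ) (hσ : ∀ m, σ (σ (σ m)) = m) (h : HS M) : φ^[6] h = h := by
  have two : ∀ (h : HS M) (γ : G2), (φ (φ h)).coeff γ = σ (σ (h.coeff γ)) := by
    intro h γ
    rw [hφ, hφ, map_mul]
    have e : σ ((-1 : M) ^ (n2 γ)) = (-1) ^ (n2 γ) := by rw [map_zpow₀, map_neg, map_one]
    have e2 : (-1 : M) ^ (n2 γ) * (-1 : M) ^ (n2 γ) = 1 := by
      rw [← mul_zpow]
      simp
    rw [e, ← mul_assoc, e2, one_mul]
  apply HahnSeries.ext
  funext γ
  change (φ (φ (φ (φ (φ (φ h)))))).coeff γ = h.coeff γ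
  rw [two, two, two, hσ, hσ]

theorem om_X6 (hψ : PSI ψ) : XX M ^ 6 = ψ (XX M) := by
  have e : XX M ^ 6 = HahnSeries.single (toLex ((6 : ℤ), (0 : ℤ))) (1 : M) := by
    unfold XX
    rw [HahnSeries.single_pow, one_pow]
    rfl
  apply HahnSeries.ext
  funext γ'
  rw [e]
  by_cases hd : 6 ∣ n1 γ'
  · obtain ⟨k, hk⟩ := hd
    rw [hψ.1 (XX M) (toLex (k, n2 γ')) γ' hk rfl]
    unfold XX
    by_cases h : γ' = toLex ((6 : ℤ), (0 : ℤ))
    · have hk1 : k = 1 := by
        rw [h] at hk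
        change (6 : ℤ) = 6 * k at hk
        omega
      have h2 : toLex (k, n2 γ') = toLex ((1 : ℤ), (0 : ℤ)) := by rw [hk1, h]; rfl
      rw [h2, HahnSeries.coeff_single_same, h, HahnSeries.coeff_single_same]
    · have h2 : toLex (k, n2 γ') ≠ toLex ((1 : ℤ), (0 : ℤ)) := by
        intro h3
        have h4 := toLex.injective h3
        rw [Prod.mk.injEq] at h4
        apply h
        apply ofLex.injective
        apply Prod.ext
        · change n1 γ' = 6
          rw [hk, h4.1]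
          norm_num
        · change n2 γ' = 0
          exact h4.2
      rw [HahnSeries.coeff_single_of_ne h, HahnSeries.coeff_single_of_ne h2]
  · rw [hψ.2 (XX M) γ' hd, HahnSeries.coeff_single_of_ne]
    intro h
    apply hd
    rw [h]
    exact ⟨1, rfl⟩

theorem om_it (l : ℕ) : (φ^[l]) = ⇑(φ ^ l) := (AlgHom.coe_pow φ l).symm

theorem om_red (hφ : PHI σ φ) (hψ : PSI ψ) (hσ : ∀ m, σ (σ (σ m)) = m) (l l' : Fin 6)
    (f : HS M) : XX M ^ ((l : ℕ) + l') * φ^[(l : ℕ) + l'] f =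
      ψ (if 6 ≤ (l : ℕ) + l' then XX M else 1) * XX M ^ ((l + l' : Fin 6) : ℕ) *
        φ^[((l + l' : Fin 6) : ℕ)] f := by
  rw [Fin.val_add]
  by_cases h : 6 ≤ (l : ℕ) + l'
  · rw [if_pos h, ← om_X6 hψ]
    obtain ⟨k, hk⟩ : ∃ k, (l : ℕ) + l' = k + 6 := ⟨(l : ℕ) + l' - 6, by omega⟩
    have hk6 : k < 6 := by omega
    have hm : ((l : ℕ) + l') % 6 = k := by omega
    rw [hm, hk, Function.iterate_add_apply, om_six hφ hσ, pow_add]
    ring
  · rw [if_neg h, map_one, one_mul]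
    have hm : ((l : ℕ) + l') % 6 = (l : ℕ) + l' := Nat.mod_eq_of_lt (by omega)
    rw [hm]

end

theorem st_OM : ST_OM.{u} := by
  classical
  intro F M _ _ _ σ φ ψ hφ hψ hσ e e'
  refine ⟨fun k => ∑ l : Fin 6, ∑ l' : Fin 6, if l + l' = k then
    e l * φ^[(l : ℕ)] (e' l') * (if 6 ≤ (l : ℕ) + l' then XX M else 1) else 0, fun f => ?_⟩
  have hψφ : ∀ (l : ℕ) (h : HS M), φ^[l] (ψ h) = ψ (φ^[l] h) := by
    intro l
    induction l with
    | zero => intro h; rfl
    | succ l ih =>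
      intro h
      rw [Function.iterate_succ_apply, om_comm hφ hψ, ih, Function.iterate_succ_apply]
  have hX : ∀ (l : ℕ), φ^[l] (XX M) = XX M := by
    intro l
    induction l with
    | zero => rfl
    | succ l ih => rw [Function.iterate_succ_apply, om_XX hφ, ih]
  have hL : op φ ψ e (op φ ψ e' f) = ∑ l : Fin 6, ∑ l' : Fin 6,
      ψ (e l * φ^[(l : ℕ)] (e' l')) * (XX M ^ ((l : ℕ) + l') * φ^[(l : ℕ) + l'] f) := by
    unfold op
    refine Finset.sum_congr rfl fun l _ => ?_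
    rw [om_it, map_sum, Finset.mul_sum]
    refine Finset.sum_congr rfl fun l' _ => ?_
    rw [map_mul, map_mul, map_pow, ← om_it, hψφ, hX, ← Function.iterate_add_apply, map_mul]
    rw [pow_add]
    ring
  have hR : op φ ψ (fun k => ∑ l : Fin 6, ∑ l' : Fin 6, if l + l' = k then
      e l * φ^[(l : ℕ)] (e' l') * (if 6 ≤ (l : ℕ) + l' then XX M else 1) else 0) f =
      ∑ l : Fin 6, ∑ l' : Fin 6, ψ (e l * φ^[(l : ℕ)] (e' l')) *
        (ψ (if 6 ≤ (l : ℕ) + l' then XX M else 1) * XX M ^ ((l + l' : Fin 6) : ℕ) *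
        φ^[((l + l' : Fin 6) : ℕ)] f) := by
    unfold op
    simp only [map_sum, Finset.sum_mul]
    rw [Finset.sum_comm]
    refine Finset.sum_congr rfl fun l _ => ?_
    rw [Finset.sum_comm]
    refine Finset.sum_congr rfl fun l' _ => ?_
    rw [Finset.sum_eq_single (l + l')]
    · rw [if_pos rfl, map_mul]
      ring
    · intro k _ hk
      rw [if_neg (fun h => hk h.symm), map_zero, zero_mul, zero_mul]
    · intro h
      exact absurd (Finset.mem_univ _) h
  rw [hL, hR]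
  refine Finset.sum_congr rfl fun l _ => Finset.sum_congr rfl fun l' _ => ?_
  rw [om_red hφ hψ hσ]

end Pool.Agent.Helper49.PZ
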